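import Mathlib
import Pool.Agent.TH161.LW.Info3

/-!
# A sharp form of Komlós' pigeonhole principle

`c x`, `x ∈ S`, are random variables with values in `{0, …, 2 ^ J - 1}` on a finite probability
space.  If `|P (c x < c y) - P (c y < c x)| ≥ δ` for all `x ≠ y` in `S`, then
`log |S| ≤ 10 J / δ`.

The proof is a linear programming bound: the signs are the imaginary parts of a Gram kernel `H`
with diagonal `J`, the kernels `Re cosh (α H + β H̄)`, `α, β ≥ 0`, are positive, and a mixture of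
them is negative at all pairs `x ≠ y`.
-/

set_option autoImplicit false

open Finset
open scoped Classical

namespace Pool.Agent.N376.KS

open Pool.Agent.TH161.LW

/-! ### Gram kernels -/

section gram

variable {β : Type*} {I : Type*} [Fintype I]

/-- the kernel with given features -/
noncomputable def gk (u : I → β → ℂ) (x y : β) : ℂ := ∑ i, u i x * (starRingEnd ℂ) (u i y)

lemma gk_pow (u : I → β → ℂ) (n : ℕ) (x y : β) :
    gk u x y ^ n = ∑ κ : Fin n → I, (∏ i, u (κ i) x) * (starRingEnd ℂ) (∏ i, u (κ i) y) := by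
  unfold gk
  rw [Fintype.sum_pow]
  refine Finset.sum_congr rfl fun κ _ => ?_
  rw [Finset.prod_mul_distrib, map_prod]

lemma sum_gk_nonneg {K : Type*} [Fintype K] (v : K → β → ℂ) (S : Finset β) :
    0 ≤ (∑ x ∈ S, ∑ y ∈ S, ∑ κ, v κ x * (starRingEnd ℂ) (v κ y)).re := by
  have h1 : ∑ x ∈ S, ∑ y ∈ S, ∑ κ, v κ x * (starRingEnd ℂ) (v κ y) =
      ∑ κ, (∑ x ∈ S, v κ x) * (starRingEnd ℂ) (∑ y ∈ S, v κ y) := by
    rw [Finset.sum_congr rfl fun x _ => Finset.sum_comm, Finset.sum_comm]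
    refine Finset.sum_congr rfl fun κ _ => ?_
    rw [map_sum, Finset.sum_mul_sum]
  rw [h1, Complex.re_sum]
  refine Finset.sum_nonneg fun κ _ => ?_
  rw [Complex.mul_conj]
  exact_mod_cast Complex.normSq_nonneg _

lemma sum_gk_pow_nonneg (u : I → β → ℂ) (n : ℕ) (S : Finset β) :
    0 ≤ (∑ x ∈ S, ∑ y ∈ S, gk u x y ^ n).re := by
  have h1 : ∑ x ∈ S, ∑ y ∈ S, gk u x y ^ n = ∑ x ∈ S, ∑ y ∈ S, ∑ κ : Fin n → I,
      (∏ i, u (κ i) x) * (starRingEnd ℂ) (∏ i, u (κ i) y) :=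
    Finset.sum_congr rfl fun x _ => Finset.sum_congr rfl fun y _ => gk_pow u n x y
  rw [h1]
  exact sum_gk_nonneg (fun (κ : Fin n → I) x => ∏ i, u (κ i) x) S

lemma sum_cosh_nonneg (u : I → β → ℂ) (S : Finset β) :
    0 ≤ (∑ x ∈ S, ∑ y ∈ S, Complex.cosh (gk u x y)).re := by
  have h1 : HasSum (fun n : ℕ => ∑ x ∈ S, ∑ y ∈ S, gk u x y ^ (2 * n) / ((2 * n).factorial : ℂ))
      (∑ x ∈ S, ∑ y ∈ S, Complex.cosh (gk u x y)) :=
    hasSum_sum fun x _ => hasSum_sum fun y _ => Complex.hasSum_cosh _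
  have h2 := Complex.hasSum_re h1
  refine h2.nonneg fun n => ?_
  have h3 : ∑ x ∈ S, ∑ y ∈ S, gk u x y ^ (2 * n) / ((2 * n).factorial : ℂ) =
      (∑ x ∈ S, ∑ y ∈ S, gk u x y ^ (2 * n)) / (((2 * n).factorial : ℝ) : ℂ) := by
    rw [Finset.sum_div]
    refine Finset.sum_congr rfl fun x _ => ?_
    rw [Finset.sum_div]
    push_cast
    rfl
  rw [h3, Complex.div_ofReal_re]
  exact div_nonneg (sum_gk_pow_nonneg u _ S) (by positivity)

lemma gk_comb (u : I → β → ℂ) {a b : ℝ} (ha : 0 ≤ a) (hb : 0 ≤ b) (x y : β) :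
    gk (Sum.elim (fun i z => (Real.sqrt a : ℂ) * u i z)
      (fun i z => (Real.sqrt b : ℂ) * (starRingEnd ℂ) (u i z))) x y =
    a * gk u x y + b * (starRingEnd ℂ) (gk u x y) := by
  unfold gk
  rw [Fintype.sum_sum_type, map_sum, Finset.mul_sum, Finset.mul_sum]
  congr 1
  · refine Finset.sum_congr rfl fun i _ => ?_
    simp only [Sum.elim_inl, map_mul, Complex.conj_ofReal]
    have h : ((Real.sqrt a : ℝ) : ℂ) * (Real.sqrt a : ℝ) = a := by
      rw [← Complex.ofReal_mul, Real.mul_self_sqrt ha]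
    linear_combination (u i x * (starRingEnd ℂ) (u i y)) * h
  · refine Finset.sum_congr rfl fun i _ => ?_
    simp only [Sum.elim_inr, map_mul, Complex.conj_ofReal, Complex.conj_conj]
    have h : ((Real.sqrt b : ℝ) : ℂ) * (Real.sqrt b : ℝ) = b := by
      rw [← Complex.ofReal_mul, Real.mul_self_sqrt hb]
    linear_combination ((starRingEnd ℂ) (u i x) * u i y) * h

lemma cosh_re (a b : ℝ) : (Complex.cosh (a + b * Complex.I)).re = Real.cosh a * Real.cos b := by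
  rw [Complex.cosh_add, Complex.cosh_mul_I, Complex.sinh_mul_I, ← Complex.ofReal_cosh,
    ← Complex.ofReal_cos, ← Complex.ofReal_sinh, ← Complex.ofReal_sin, ← Complex.ofReal_mul,
    ← mul_assoc, ← Complex.ofReal_mul, Complex.add_re, Complex.ofReal_re, Complex.re_ofReal_mul,
    Complex.I_re, mul_zero, add_zero]

/-- the positive kernels -/
lemma sum_cosh_cos_nonneg (u : I → β → ℂ) (S : Finset β) {s ξ : ℝ} (hs : 0 ≤ s) (h0 : 0 ≤ ξ)
    (h1 : ξ ≤ 1) :
    0 ≤ ∑ x ∈ S, ∑ y ∈ S, Real.cosh (s * (gk u x y).re) * Real.cos (ξ * (s * (gk u x y).im)) := by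
  have ha : 0 ≤ s * (1 + ξ) / 2 := by positivity
  have hb : 0 ≤ s * (1 - ξ) / 2 := by
    have : 0 ≤ 1 - ξ := by linarith
    positivity
  have h2 := sum_cosh_nonneg (Sum.elim (fun i z => (Real.sqrt (s * (1 + ξ) / 2) : ℂ) * u i z)
      (fun i z => (Real.sqrt (s * (1 - ξ) / 2) : ℂ) * (starRingEnd ℂ) (u i z))) S
  rw [Complex.re_sum] at h2
  refine h2.trans_eq (Finset.sum_congr rfl fun x _ => ?_)
  rw [Complex.re_sum]
  refine Finset.sum_congr rfl fun y _ => ?_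
  rw [gk_comb u ha hb, ← cosh_re]
  congr 2
  apply Complex.ext
  · simp
    ring
  · simp
    ring

end gram

/-! ### A band limited function negative away from the origin -/

/-- the mixture of cosines -/
noncomputable def gg (v : ℝ) : ℝ := ∫ ξ in (0 : ℝ)..1, ξ * (1 - ξ) ^ 2 * Real.cos (ξ * v)

lemma gg_zero : gg 0 = 1 / 12 := by
  unfold gg
  have h1 : ∀ ξ : ℝ, HasDerivAt (fun ξ : ℝ => ξ ^ 2 / 2 - 2 * ξ ^ 3 / 3 + ξ ^ 4 / 4)
      (ξ * (1 - ξ) ^ 2 * Real.cos (ξ * 0)) ξ := by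
    intro ξ
    have e := (((hasDerivAt_id ξ).pow 2).div_const 2).sub
      ((((hasDerivAt_id ξ).pow 3).const_mul 2).div_const 3) |>.add
      (((hasDerivAt_id ξ).pow 4).div_const 4)
    refine e.congr_deriv ?_
    simp
    ring
  rw [intervalIntegral.integral_eq_sub_of_hasDerivAt (fun ξ _ => h1 ξ)
    (Continuous.intervalIntegrable (by fun_prop) _ _)]
  norm_num

lemma gg_eq {v : ℝ} (hv : v ≠ 0) :
    gg v = -1 / v ^ 2 - 2 * Real.sin v / v ^ 3 + 6 * (1 - Real.cos v) / v ^ 4 := by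
  unfold gg
  have h1 : ∀ ξ : ℝ, HasDerivAt (fun ξ : ℝ => (ξ * (1 - ξ) ^ 2) * Real.sin (ξ * v) / v +
      (1 - 4 * ξ + 3 * ξ ^ 2) * Real.cos (ξ * v) / v ^ 2 -
      (-4 + 6 * ξ) * Real.sin (ξ * v) / v ^ 3 - 6 * Real.cos (ξ * v) / v ^ 4)
      (ξ * (1 - ξ) ^ 2 * Real.cos (ξ * v)) ξ := by
    intro ξ
    have hs : HasDerivAt (fun ξ : ℝ => Real.sin (ξ * v)) (Real.cos (ξ * v) * (1 * v)) ξ :=
      ((hasDerivAt_id ξ).mul_const v).sin
    have hc : HasDerivAt (fun ξ : ℝ => Real.cos (ξ * v)) (-Real.sin (ξ * v) * (1 * v)) ξ :=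
      ((hasDerivAt_id ξ).mul_const v).cos
    have hp1 : HasDerivAt (fun ξ : ℝ => ξ * (1 - ξ) ^ 2) (1 - 4 * ξ + 3 * ξ ^ 2) ξ := by
      refine ((hasDerivAt_id ξ).mul (((hasDerivAt_id ξ).const_sub 1).pow 2)).congr_deriv ?_
      simp
      ring
    have hp2 : HasDerivAt (fun ξ : ℝ => 1 - 4 * ξ + 3 * ξ ^ 2) (-4 + 6 * ξ) ξ := by
      refine ((((hasDerivAt_id ξ).const_mul 4).const_sub 1).add
        (((hasDerivAt_id ξ).pow 2).const_mul 3)).congr_deriv ?_
      simp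
      ring
    have hp3 : HasDerivAt (fun ξ : ℝ => -4 + 6 * ξ) 6 ξ := by
      refine (((hasDerivAt_id ξ).const_mul 6).const_add (-4)).congr_deriv ?_
      simp
    have e := (((hp1.mul hs).div_const v).add ((hp2.mul hc).div_const (v ^ 2))).sub
      ((hp3.mul hs).div_const (v ^ 3)) |>.sub ((hc.const_mul 6).div_const (v ^ 4))
    refine e.congr_deriv ?_
    field_simp
    ring
  rw [intervalIntegral.integral_eq_sub_of_hasDerivAt (fun ξ _ => h1 ξ)
    (Continuous.intervalIntegrable (by fun_prop) _ _)]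
  simp
  field_simp
  ring

lemma gg_neg (v : ℝ) : gg (-v) = gg v := by
  unfold gg
  refine intervalIntegral.integral_congr fun ξ _ => ?_
  rw [mul_neg, Real.cos_neg]

lemma gg_abs (v : ℝ) : gg |v| = gg v := by
  rcases abs_choice v with h | h
  · rw [h]
  · rw [h, gg_neg]

lemma gg_le {v : ℝ} (hv : 6 ≤ |v|) : gg v ≤ -(1 / (3 * v ^ 2)) := by
  rw [← gg_abs, ← sq_abs v]
  obtain ⟨t, ht⟩ : ∃ t : ℝ, t = |v| := ⟨_, rfl⟩
  rw [← ht] at hv ⊢
  have ht0 : 0 < t := by linarith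
  rw [gg_eq ht0.ne']
  have h1 : -(2 * Real.sin t / t ^ 3) ≤ 1 / (3 * t ^ 2) := by
    have h2 := Real.neg_one_le_sin t
    rw [← neg_div, div_le_div_iff₀ (by positivity) (by positivity)]
    have h3 : -(2 * Real.sin t) * (3 * t ^ 2) ≤ 2 * (3 * t ^ 2) := by
      have : 0 ≤ 3 * t ^ 2 := by positivity
      nlinarith
    have h4 : 6 * t ^ 2 ≤ t * t ^ 2 := mul_le_mul_of_nonneg_right hv (by positivity)
    nlinarith
  have h5 : 6 * (1 - Real.cos t) / t ^ 4 ≤ 1 / (3 * t ^ 2) := by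
    have h2 := Real.neg_one_le_cos t
    rw [div_le_div_iff₀ (by positivity) (by positivity)]
    have h3 : 6 * (1 - Real.cos t) * (3 * t ^ 2) ≤ 12 * (3 * t ^ 2) := by
      have : 0 ≤ 3 * t ^ 2 := by positivity
      nlinarith
    have h4 : 36 * t ^ 2 ≤ t ^ 2 * t ^ 2 := mul_le_mul_of_nonneg_right (by nlinarith) (by positivity)
    nlinarith
  have h6 : -1 / t ^ 2 = -(1 / (3 * t ^ 2)) - 1 / (3 * t ^ 2) - 1 / (3 * t ^ 2) := by
    field_simp
    norm_num
  have h7 : 2 * Real.sin t / t ^ 3 = -(-(2 * Real.sin t / t ^ 3)) := by ring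
  linarith

/-- the mixture of the positive kernels -/
lemma sum_cosh_gg_nonneg {β : Type*} {I : Type*} [Fintype I] (u : I → β → ℂ) (S : Finset β)
    {s : ℝ} (hs : 0 ≤ s) :
    0 ≤ ∑ x ∈ S, ∑ y ∈ S, Real.cosh (s * (gk u x y).re) * gg (s * (gk u x y).im) := by
  have h1 : ∑ x ∈ S, ∑ y ∈ S, Real.cosh (s * (gk u x y).re) * gg (s * (gk u x y).im) =
      ∫ ξ in (0 : ℝ)..1, ξ * (1 - ξ) ^ 2 * ∑ x ∈ S, ∑ y ∈ S,
        Real.cosh (s * (gk u x y).re) * Real.cos (ξ * (s * (gk u x y).im)) := by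
    have h2 : ∀ ξ : ℝ, ξ * (1 - ξ) ^ 2 * ∑ x ∈ S, ∑ y ∈ S,
        Real.cosh (s * (gk u x y).re) * Real.cos (ξ * (s * (gk u x y).im)) =
        ∑ x ∈ S, ∑ y ∈ S, Real.cosh (s * (gk u x y).re) *
          (ξ * (1 - ξ) ^ 2 * Real.cos (ξ * (s * (gk u x y).im))) := by
      intro ξ
      rw [Finset.mul_sum]
      refine Finset.sum_congr rfl fun x _ => ?_
      rw [Finset.mul_sum]
      refine Finset.sum_congr rfl fun y _ => ?_
      ring
    simp_rw [h2]
    rw [intervalIntegral.integral_finsetSum]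
    · refine Finset.sum_congr rfl fun x _ => ?_
      rw [intervalIntegral.integral_finsetSum]
      · refine Finset.sum_congr rfl fun y _ => ?_
        rw [intervalIntegral.integral_const_mul]
        rfl
      · intro y _
        exact Continuous.intervalIntegrable (by fun_prop) _ _
    · intro x _
      exact Continuous.intervalIntegrable (by fun_prop) _ _
  rw [h1]
  refine intervalIntegral.integral_nonneg (by norm_num) fun ξ hξ => ?_
  refine mul_nonneg (mul_nonneg hξ.1 (sq_nonneg _)) ?_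
  exact sum_cosh_cos_nonneg u S hs hξ.1 hξ.2

/-! ### The kernel of the signs -/

variable {Ω β : Type*} [Fintype Ω]

/-- the two phases -/
noncomputable def phz (d : ℕ) : ℂ := if d % 2 = 0 then 1 else -Complex.I

/-- the features -/
noncomputable def ft (J : ℕ) (c : β → Ω → ℕ) (i : Ω × Fin J × Fin (2 ^ J)) (x : β) : ℂ :=
  if c x i.1 / 2 ^ (i.2.1 : ℕ) / 2 = i.2.2 then phz (c x i.1 / 2 ^ (i.2.1 : ℕ)) else 0

lemma phz_re (u v : ℕ) (h : u / 2 = v / 2) :
    (phz u * (starRingEnd ℂ) (phz v)).im = sgn u v := by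
  unfold phz sgn
  rcases Nat.mod_two_eq_zero_or_one u with hu | hu <;>
    rcases Nat.mod_two_eq_zero_or_one v with hv | hv
  · have h1 : u = v := by omega
    simp [h1, hv]
  · have h1 : u < v := by omega
    simp [hu, hv, h1]
  · have h1 : v < u := by omega
    simp [hu, hv, h1, h1.not_gt]
  · have h1 : u = v := by omega
    simp [h1, hv]

lemma phz_self (u : ℕ) : phz u * (starRingEnd ℂ) (phz u) = 1 := by
  unfold phz
  rcases Nat.mod_two_eq_zero_or_one u with hu | hu <;> simp [hu]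

lemma gk_ft {J : ℕ} {c : β → Ω → ℕ} {x y : β} (hx : ∀ ω, c x ω < 2 ^ J) :
    gk (ft J c) x y = ∑ ω, ∑ j : Fin J,
      (if c x ω / 2 ^ (j : ℕ) / 2 = c y ω / 2 ^ (j : ℕ) / 2 then
        phz (c x ω / 2 ^ (j : ℕ)) * (starRingEnd ℂ) (phz (c y ω / 2 ^ (j : ℕ))) else 0) := by
  unfold gk
  rw [Fintype.sum_prod_type]
  refine Finset.sum_congr rfl fun ω _ => ?_
  rw [Fintype.sum_prod_type]
  refine Finset.sum_congr rfl fun j _ => ?_
  have hlt : c x ω / 2 ^ (j : ℕ) / 2 < 2 ^ J := by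
    have h1 := hx ω
    have h2 : c x ω / 2 ^ (j : ℕ) ≤ c x ω := Nat.div_le_self _ _
    omega
  rw [Finset.sum_eq_single (⟨c x ω / 2 ^ (j : ℕ) / 2, hlt⟩ : Fin (2 ^ J))]
  · unfold ft
    simp only
    by_cases h : c x ω / 2 ^ (j : ℕ) / 2 = c y ω / 2 ^ (j : ℕ) / 2
    · simp [h]
    · rw [if_neg h, if_neg (Ne.symm h)]
      simp
  · intro p _ hp
    unfold ft
    simp only
    rw [if_neg, zero_mul]
    intro h
    apply hp
    ext
    exact h.symm
  · intro h
    exact absurd (Finset.mem_univ _) h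

lemma gk_ft_im {J : ℕ} {c : β → Ω → ℕ} {x y : β} (hx : ∀ ω, c x ω < 2 ^ J)
    (hy : ∀ ω, c y ω < 2 ^ J) : (gk (ft J c) x y).im = BT c x y := by
  rw [gk_ft hx, Complex.im_sum]
  unfold BT
  refine Finset.sum_congr rfl fun ω _ => ?_
  rw [sgn_eq J _ _ (hx ω) (hy ω), Complex.im_sum, ← Fin.sum_univ_eq_sum_range
    (fun j => tdig (c x ω / 2 ^ j) (c y ω / 2 ^ j)) J]
  refine Finset.sum_congr rfl fun j _ => ?_
  unfold tdig
  split_ifs with h
  · exact phz_re _ _ h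
  · simp

lemma gk_ft_self {J : ℕ} {c : β → Ω → ℕ} {x : β} (hx : ∀ ω, c x ω < 2 ^ J) :
    gk (ft J c) x x = ((Fintype.card Ω * J : ℝ) : ℂ) := by
  rw [gk_ft hx]
  simp only [if_true, phz_self]
  simp

lemma sgn_le (u v : ℕ) : |sgn u v| ≤ 1 := by
  unfold sgn
  split_ifs <;> norm_num

lemma BT_le (c : β → Ω → ℕ) (x y : β) : |BT c x y| ≤ Fintype.card Ω := by
  unfold BT
  refine (Finset.abs_sum_le_sum_abs _ _).trans ?_
  refine (Finset.sum_le_sum fun ω _ => sgn_le (c x ω) (c y ω)).trans ?_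
  simp

lemma BT_self (c : β → Ω → ℕ) (x : β) : BT c x x = 0 := by
  unfold BT
  simp [sgn_self]

/-- the linear programming bound -/
theorem pig0 [Nonempty Ω] {J : ℕ} {c : β → Ω → ℕ} {δ : ℝ} (hδ : 0 < δ)
    {S : Finset β} (hS : S.Nonempty) (hc : ∀ x ∈ S, ∀ ω, c x ω < 2 ^ J)
    (hB : ∀ x ∈ S, ∀ y ∈ S, x ≠ y → δ * Fintype.card Ω ≤ |BT c x y|) :
    δ ^ 2 * ((S.card : ℝ) - 1) ≤ 9 * Real.cosh (6 * J / δ) := by
  obtain ⟨m, hm⟩ : ∃ m : ℝ, m = Fintype.card Ω := ⟨_, rfl⟩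
  have hm0 : 0 < m := by rw [hm]; exact_mod_cast Fintype.card_pos
  obtain ⟨s, hs⟩ : ∃ s : ℝ, s = 6 / (δ * m) := ⟨_, rfl⟩
  have hs0 : 0 < s := by rw [hs]; positivity
  have h1 := sum_cosh_gg_nonneg (ft J c) S hs0.le
  have hN : (0 : ℝ) < S.card := by exact_mod_cast hS.card_pos
  obtain ⟨A, hA⟩ : ∃ A : ℝ, A = Real.cosh (6 * J / δ) / 12 := ⟨_, rfl⟩
  have h2 : ∀ x ∈ S, ∑ y ∈ S, Real.cosh (s * (gk (ft J c) x y).re) *
      gg (s * (gk (ft J c) x y).im) ≤ A - (S.card - 1) * (δ ^ 2 / 108) := by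
    intro x hx
    rw [← Finset.add_sum_erase S _ hx]
    have h3 : Real.cosh (s * (gk (ft J c) x x).re) * gg (s * (gk (ft J c) x x).im) = A := by
      rw [gk_ft_self (hc x hx), Complex.ofReal_im, mul_zero, gg_zero, Complex.ofReal_re, hA, ← hm,
        hs]
      have h4 : 6 / (δ * m) * (m * J) = 6 * J / δ := by
        field_simp
      rw [h4]
      ring
    have h4 : ∀ y ∈ S.erase x, Real.cosh (s * (gk (ft J c) x y).re) *
        gg (s * (gk (ft J c) x y).im) ≤ -(δ ^ 2 / 108) := by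
      intro y hy
      obtain ⟨hyx, hyS⟩ := Finset.mem_erase.mp hy
      rw [gk_ft_im (hc x hx) (hc y hyS)]
      have h5 := hB x hx y hyS (Ne.symm hyx)
      have h6 := BT_le c x y
      rw [← hm] at h5 h6
      have h7 : 6 ≤ |s * BT c x y| := by
        rw [abs_mul, abs_of_pos hs0, hs, div_mul_eq_mul_div, le_div_iff₀ (by positivity)]
        nlinarith
      have h8 := gg_le h7
      have h9 : |s * BT c x y| ≤ 6 / δ := by
        rw [abs_mul, abs_of_pos hs0]
        calc s * |BT c x y| ≤ s * m := mul_le_mul_of_nonneg_left h6 hs0.le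
          _ = 6 / δ := by rw [hs]; field_simp
      have h10 : (s * BT c x y) ^ 2 ≤ 36 / δ ^ 2 := by
        rw [← sq_abs]
        calc |s * BT c x y| ^ 2 ≤ (6 / δ) ^ 2 := pow_le_pow_left₀ (abs_nonneg _) h9 2
          _ = 36 / δ ^ 2 := by rw [div_pow]; norm_num
      have h11 : δ ^ 2 / 108 ≤ 1 / (3 * (s * BT c x y) ^ 2) := by
        have h12 : 0 < (s * BT c x y) ^ 2 := by
          rw [← sq_abs]
          have : 0 < |s * BT c x y| := by linarith
          positivity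
        rw [le_div_iff₀ (by positivity)]
        rw [le_div_iff₀ (by positivity)] at h10
        nlinarith
      have h13 : gg (s * BT c x y) ≤ -(δ ^ 2 / 108) := by linarith
      have h14 := Real.one_le_cosh (s * (gk (ft J c) x y).re)
      have h15 : 0 ≤ δ ^ 2 / 108 := by positivity
      nlinarith
    have h5 := Finset.sum_le_sum h4
    rw [Finset.sum_const, Finset.card_erase_of_mem hx, nsmul_eq_mul,
      Nat.cast_sub (Finset.card_pos.mpr hS)] at h5
    rw [h3]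
    push_cast at h5
    linarith
  have h3 := h1.trans (Finset.sum_le_sum h2)
  rw [Finset.sum_const, nsmul_eq_mul] at h3
  have h4 : 0 ≤ A - (S.card - 1) * (δ ^ 2 / 108) := by
    by_contra hcon
    rw [not_le] at hcon
    have := mul_neg_of_pos_of_neg hN hcon
    linarith
  rw [hA] at h4
  linarith

/-- **Komlós' pigeonhole principle** -/
theorem pig [Nonempty Ω] {J : ℕ} (hJ : 1 ≤ J) {c : β → Ω → ℕ} {δ : ℝ} (hδ : 0 < δ) (hδ1 : δ ≤ 1)
    {S : Finset β} (hS : S.Nonempty) (hc : ∀ x ∈ S, ∀ ω, c x ω < 2 ^ J)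
    (hB : ∀ x ∈ S, ∀ y ∈ S, x ≠ y → δ * Fintype.card Ω ≤ |BT c x y|) :
    Real.log S.card ≤ 10 * J / δ := by
  have h1 := pig0 hδ hS hc hB
  have hN : (0 : ℝ) < S.card := by exact_mod_cast hS.card_pos
  have hJ' : (1 : ℝ) ≤ J := by exact_mod_cast hJ
  obtain ⟨y, hy⟩ : ∃ y : ℝ, y = J / δ := ⟨_, rfl⟩
  have hyδ : 1 / δ ≤ y := by
    rw [hy]
    exact div_le_div_of_nonneg_right hJ' hδ.le
  have hy1 : 1 ≤ y := by
    refine le_trans ?_ hyδ
    rw [le_div_iff₀ hδ]
    linarith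
  have e1 : 6 * (J : ℝ) / δ = 6 * y := by rw [hy]; ring
  have e2 : 10 * (J : ℝ) / δ = 10 * y := by rw [hy]; ring
  rw [e1] at h1
  rw [e2, Real.log_le_iff_le_exp hN]
  have h2 : Real.cosh (6 * y) ≤ Real.exp (6 * y) := by
    rw [Real.cosh_eq]
    have : Real.exp (-(6 * y)) ≤ Real.exp (6 * y) := Real.exp_le_exp.mpr (by linarith)
    linarith
  have h3 : y ^ 2 ≤ 2 * Real.exp y := by
    have := Real.pow_div_factorial_le_exp y (by linarith) 2
    norm_num [Nat.factorial] at this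
    linarith
  have h4 : (S.card : ℝ) - 1 ≤ y ^ 2 * (9 * Real.exp (6 * y)) := by
    have h5 : (S.card : ℝ) - 1 ≤ (1 / δ) ^ 2 * (9 * Real.exp (6 * y)) := by
      rw [one_div, inv_pow, inv_mul_eq_div, le_div_iff₀ (by positivity)]
      linarith
    refine h5.trans ?_
    gcongr
  have h5 : y ^ 2 * (9 * Real.exp (6 * y)) ≤ 18 * Real.exp (7 * y) := by
    calc y ^ 2 * (9 * Real.exp (6 * y)) ≤ (2 * Real.exp y) * (9 * Real.exp (6 * y)) := by gcongr
      _ = 18 * Real.exp (7 * y) := by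
        have : Real.exp (7 * y) = Real.exp y * Real.exp (6 * y) := by
          rw [← Real.exp_add]
          congr 1
          ring
        rw [this]
        ring
  have h6 : (1 : ℝ) ≤ Real.exp (7 * y) := Real.one_le_exp (by linarith)
  have h7 : 19 * Real.exp (7 * y) ≤ Real.exp (10 * y) := by
    have h8 : Real.exp (10 * y) = Real.exp (3 * y) * Real.exp (7 * y) := by
      rw [← Real.exp_add]
      congr 1
      ring
    have h9 : (19 : ℝ) ≤ Real.exp (3 * y) := by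
      have h10 : Real.exp 3 ≤ Real.exp (3 * y) := Real.exp_le_exp.mpr (by linarith)
      have h11 : Real.exp 3 = Real.exp 1 ^ 3 := by
        rw [← Real.exp_nat_mul]
        norm_num
      have h12 : (2.7182818283 : ℝ) ^ 3 ≤ Real.exp 1 ^ 3 :=
        pow_le_pow_left₀ (by norm_num) Real.exp_one_gt_d9.le 3
      have h13 : (19 : ℝ) ≤ 2.7182818283 ^ 3 := by norm_num
      linarith
    rw [h8]
    exact mul_le_mul_of_nonneg_right h9 (Real.exp_pos _).le
  linarith

end Pool.Agent.N376.KS
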