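import Mathlib
import Pool.Agent.TH938.KS_DBL
import Pool.Agent.N376.KS.Pig

/-!
# Doubling with the sharp form of Komlós' pigeonhole principle
-/

set_option autoImplicit false

open Finset
open scoped Classical

namespace Pool.Agent.N376.KS

open Pool.Agent.TH161.LW Pool.Agent.TH161.KS
open Pool.Agent.TH938.KS_DBL (card_pos' markov close cc cc_eq bt_le)

/-- (DBL) doubling: a set of elements at mutual mean distances at least `η` within mean distance `B`
of an element has at most `exp (C log (B / (η ε)) / ε)` elements -/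
def P_DBL1 : Prop := ∃ C : ℝ, 1 ≤ C ∧ ∀ (α : Type) [Fintype α] [PartialOrder α] (M : ℕ),
  Std α M → ∀ ε : ℝ, 0 < ε → ε ≤ 1 / 2 → Unb α M ε →
  ∀ (Z : Finset α) (y : α) (η B : ℝ), C / ε ^ 2 ≤ η → η ≤ B →
    (∀ z ∈ Z, ∀ z' ∈ Z, z ≠ z' → η ≤ rho M z z') → (∀ z ∈ Z, rho M y z ≤ B) →
    (Z.card : ℝ) ≤ Real.exp (C * Real.log (B / (η * ε)) / ε)

theorem t_DBL1 : P_DBL1 := by
  refine ⟨2 ^ 17, by norm_num, ?_⟩
  intro α _ _ M hstd ε hε hε2 hun Z y η B hη hηB hsep hB
  have hN := card_pos' hstd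
  have hη17 : 2 ^ 17 / ε ^ 2 ≤ η := hη
  have hη0 : 0 < η := lt_of_lt_of_le (by positivity) hη17
  have hB0 : 0 < B := by linarith
  set X := B / (η * ε) with hX
  have hX2 : 2 ≤ X := by
    rw [hX, le_div_iff₀ (by positivity)]
    nlinarith
  have hlog2 : 0 < Real.log 2 := Real.log_pos (by norm_num)
  have hlogX : Real.log 2 ≤ Real.log X := Real.log_le_log (by norm_num) hX2
  rcases Z.eq_empty_or_nonempty with hZ | hZ
  · rw [hZ]; simp; positivity
  set U := unit α M with hU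
  have hU1 : 1 ≤ U := hstd.unit_ge
  have hU0 : 0 < U := by linarith
  set η₁ := ε ^ 2 * η / 2 ^ 17 with hη₁
  have hη1 : 1 ≤ η₁ := by
    rw [hη₁, le_div_iff₀ (by positivity)]
    rw [div_le_iff₀ (by positivity)] at hη17
    linarith
  set B₁ : ℕ := ⌈16 * B / ε * U⌉₊ with hB₁
  set M₀ : ℕ := ⌊η₁ * U⌋₊ with hM₀
  have hM₀1 : 1 ≤ M₀ := by
    rw [hM₀]
    refine Nat.le_floor ?_
    push_cast
    nlinarith
  have hM₀le : (M₀ : ℝ) ≤ η₁ * U := Nat.floor_le (by positivity)
  have hM₀ge : η₁ * U / 2 ≤ M₀ := by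
    have h1 : η₁ * U < M₀ + 1 := Nat.lt_floor_add_one _
    have h2 : (1 : ℝ) ≤ M₀ := by exact_mod_cast hM₀1
    linarith
  have hB₁ge : 16 * B / ε * U ≤ B₁ := Nat.le_ceil _
  have hB₁le : (B₁ : ℝ) ≤ 17 * (B / ε) * U := by
    have h1 : (B₁ : ℝ) < 16 * B / ε * U + 1 := Nat.ceil_lt_add_one (by positivity)
    have h2 : 1 ≤ B / ε * U := by
      have h3 : 1 ≤ B / ε := by
        rw [le_div_iff₀ hε]
        have : 1 ≤ η := by
          refine le_trans ?_ hη17
          rw [le_div_iff₀ (by positivity)]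
          nlinarith
        linarith
      nlinarith
    have h3 : 16 * B / ε * U = 16 * (B / ε * U) := by ring
    rw [h3] at h1
    linarith
  set J : ℕ := ⌈28 * (Real.log X / Real.log 2)⌉₊ with hJ
  have hXpow : X ^ 28 ≤ (2 : ℝ) ^ J := by
    have h1 : 28 * (Real.log X / Real.log 2) ≤ J := Nat.le_ceil _
    have h2 : 28 * Real.log X ≤ J * Real.log 2 := by
      rw [mul_div_assoc'] at h1
      rwa [div_le_iff₀ hlog2] at h1
    rw [← Real.log_le_log_iff (by positivity) (by positivity), Real.log_pow, Real.log_pow]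
    exact_mod_cast h2
  have hJle : (J : ℝ) ≤ 42 * Real.log X := by
    have h2 : 1 ≤ Real.log X / Real.log 2 := by
      rw [le_div_iff₀ hlog2]; linarith
    have h1 : (J : ℝ) < 28 * (Real.log X / Real.log 2) + 1 := Nat.ceil_lt_add_one (by linarith)
    have h3 : 29 * (Real.log X / Real.log 2) ≤ 42 * Real.log X := by
      rw [mul_div_assoc', div_le_iff₀ hlog2]
      have : 0.6931471803 < Real.log 2 := Real.log_two_gt_d9
      nlinarith
    linarith
  have hJ1 : 1 ≤ J := by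
    by_contra hcon
    have : J = 0 := by omega
    rw [this, pow_zero] at hXpow
    have h2 : (2 : ℝ) ^ 28 ≤ X ^ 28 := pow_le_pow_left₀ (by norm_num) hX2 28
    norm_num at h2
    linarith
  have hJB : 2 * B₁ / M₀ + 1 < 2 ^ J := by
    have h1 : ((2 * B₁ / M₀ : ℕ) : ℝ) ≤ ((2 * B₁ : ℕ) : ℝ) / M₀ := Nat.cast_div_le
    have hM₀0 : (0 : ℝ) < M₀ := by exact_mod_cast hM₀1
    have h2 : ((2 * B₁ : ℕ) : ℝ) / M₀ ≤ 68 * 2 ^ 17 * (B / (ε ^ 3 * η)) := by
      rw [div_le_iff₀ hM₀0]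
      push_cast
      have h3 : 68 * 2 ^ 17 * (B / (ε ^ 3 * η)) * (η₁ * U / 2) ≤
        68 * 2 ^ 17 * (B / (ε ^ 3 * η)) * M₀ := mul_le_mul_of_nonneg_left hM₀ge (by positivity)
      have h4 : 68 * 2 ^ 17 * (B / (ε ^ 3 * η)) * (η₁ * U / 2) = 34 * (B / ε) * U := by
        rw [hη₁]; field_simp; ring
      linarith
    have h3 : B / (ε ^ 3 * η) ≤ X ^ 3 := by
      have h4 : X ^ 3 = (B / η) ^ 2 * (B / (ε ^ 3 * η)) := by
        rw [hX]; field_simp
      have h5 : 1 ≤ B / η := by rw [le_div_iff₀ hη0]; linarith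
      rw [h4]
      have h6 : 1 ≤ (B / η) ^ 2 := one_le_pow₀ h5
      have h7 : 0 ≤ B / (ε ^ 3 * η) := by positivity
      nlinarith
    have h4 : (1 : ℝ) ≤ X ^ 3 := one_le_pow₀ (by linarith)
    have h5 : ((2 * B₁ / M₀ : ℕ) : ℝ) + 1 < (2 : ℝ) ^ J := by
      have h6 : (2 : ℝ) ^ 25 * X ^ 3 ≤ X ^ 28 := by
        have h7 : (2 : ℝ) ^ 25 ≤ X ^ 25 := pow_le_pow_left₀ (by norm_num) hX2 25
        calc (2 : ℝ) ^ 25 * X ^ 3 ≤ X ^ 25 * X ^ 3 := mul_le_mul_of_nonneg_right h7 (by positivity)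
          _ = X ^ 28 := by ring
      have h8 : ((2 * B₁ / M₀ : ℕ) : ℝ) + 1 < 2 ^ 25 * X ^ 3 := by
        have h9 : 68 * 2 ^ 17 * (B / (ε ^ 3 * η)) ≤ 68 * 2 ^ 17 * X ^ 3 :=
          mul_le_mul_of_nonneg_left h3 (by norm_num)
        have h10 : (2 : ℝ) ^ 25 * X ^ 3 = 256 * 2 ^ 17 * X ^ 3 := by ring
        rw [h10]
        have h11 : ((2 * B₁ / M₀ : ℕ) : ℝ) ≤ 68 * 2 ^ 17 * X ^ 3 := h1.trans (h2.trans h9)
        linarith
      linarith
    exact_mod_cast h5
  -- same cell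
  have hsame : ∀ z ∈ Z, ∀ z' ∈ Z, z ≠ z' →
      pr α M (fun f => cc y B₁ M₀ J z f = cc y B₁ M₀ J z' f) ≤ ε := by
    intro z hz z' hz' hzz
    have hfar : ∀ w ∈ Z, pr α M (fun f => 16 * B / ε ≤ |dd M y w f|) ≤ ε / 16 := by
      intro w hw
      have h1 := markov (α := α) M (X := fun f => |dd M y w f|) (fun f => abs_nonneg _)
        (t := 16 * B / ε) (by positivity)
      refine h1.trans ?_
      change rho M y w / (16 * B / ε) ≤ ε / 16
      rw [div_le_iff₀ (by positivity)]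
      have h2 : ε / 16 * (16 * B / ε) = B := by field_simp
      rw [h2]
      exact hB w hw
    have hcl := close hstd hε hε2 hη17 (hsep z hz z' hz' hzz)
    rw [← hη₁] at hcl
    have h1 : pr α M (fun f => cc y B₁ M₀ J z f = cc y B₁ M₀ J z' f) ≤
        pr α M (fun f => |dd M z z' f| < η₁ ∨ (16 * B / ε ≤ |dd M y z f| ∨
          16 * B / ε ≤ |dd M y z' f|)) := by
      refine Pool.Agent.TH938.KS_DBL.pr_mono fun f hf => ?_
      have h2 : ∀ a b : α, |dd M a b f| = |((f b : ℤ) - f a : ℤ)| / U := by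
        intro a b
        unfold dd
        rw [abs_div, abs_of_pos hU0]
        push_cast
        rfl
      rcases cc_eq (by omega) hJB hf with h3 | h3 | h3
      · left
        rw [h2, div_lt_iff₀ hU0]
        refine lt_of_lt_of_le ?_ hM₀le
        exact_mod_cast h3
      · right; left
        rw [h2, le_div_iff₀ hU0]
        refine hB₁ge.trans ?_
        exact_mod_cast h3
      · right; right
        rw [h2, le_div_iff₀ hU0]
        refine hB₁ge.trans ?_
        exact_mod_cast h3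
    have h2 := Pool.Agent.TH938.KS_DBL.pr_or (α := α) (M := M) (fun f => |dd M z z' f| < η₁)
      (fun f => 16 * B / ε ≤ |dd M y z f| ∨ 16 * B / ε ≤ |dd M y z' f|)
    have h3 := Pool.Agent.TH938.KS_DBL.pr_or (α := α) (M := M) (fun f => 16 * B / ε ≤ |dd M y z f|)
      (fun f => 16 * B / ε ≤ |dd M y z' f|)
    have h4 := hfar z hz
    have h5 := hfar z' hz'
    linarith
  have hne : Nonempty (Om α M) := by
    obtain ⟨f, hf⟩ := hstd.ne
    exact ⟨⟨f, hf⟩⟩
  have hinfo := pig (Ω := Om α M) (J := J) hJ1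
    (c := fun (x : α) (ω : Om α M) => cc y B₁ M₀ J x ω.1) hε (by linarith) hZ
    (fun x _ ω => by
      show cc y B₁ M₀ J x ω.1 < 2 ^ J
      unfold cc
      have : 0 < 2 ^ J := by positivity
      omega) (fun z hz z' hz' hzz => by
      simp only [Fintype.card_coe]
      rcases hun z z' hzz with h1 | h1
      · have h2 := bt_le hstd h1 (hsame z hz z' hz' hzz)
        refine le_trans ?_ (neg_le_abs _)
        linarith
      · have h2 := bt_le hstd h1 (hsame z' hz' z hz hzz.symm)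
        rw [BT_anti, abs_neg]
        refine le_trans ?_ (neg_le_abs _)
        linarith)
  have hZ0 : (0 : ℝ) < Z.card := by exact_mod_cast hZ.card_pos
  rw [← Real.exp_log hZ0]
  refine Real.exp_le_exp.mpr ?_
  refine hinfo.trans ?_
  refine div_le_div_of_nonneg_right ?_ hε.le
  have h2 : 0 ≤ Real.log X := by linarith
  linarith

end Pool.Agent.N376.KS
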